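import Pool.Agent.MP_c69980_ag.H4.Base
import Pool.Agent.MP_c69980_ag.H60.Disc

/-!
Hermitian algebra and the normalisation of a holomorphic curve with bounded circle means.
-/

set_option autoImplicit false

noncomputable section

namespace Pool.Agent.MP_c69980_ag.H84

open Metric Filter Topology MeasureTheory Set Real
open scoped ENNReal ComplexConjugate
open H4 H60

variable {n : ℕ} {x y z : Fin n → ℂ}

lemma sq_pos' (hy : y ≠ 0) : 0 < H4.sq y := by
  obtain ⟨i, hi⟩ := Function.ne_iff.1 hy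
  exact Finset.sum_pos' (fun _ _ => by positivity)
    ⟨i, Finset.mem_univ _, pow_pos (norm_pos_iff.2 hi) 2⟩

lemma sq_smul (a : ℂ) (y : Fin n → ℂ) : H4.sq (a • y) = ‖a‖ ^ 2 * H4.sq y := by
  simp [H4.sq, Finset.mul_sum, mul_pow]

lemma ip_smul_left (a : ℂ) (y w : Fin n → ℂ) : ip (a • y) w = a * ip y w := by
  simp [ip, Finset.mul_sum, mul_assoc]

lemma ip_smul_right (a : ℂ) (y w : Fin n → ℂ) : ip y (a • w) = conj a * ip y w := by
  simp [ip, Finset.mul_sum, mul_left_comm]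

lemma ip_sub_left (x y w : Fin n → ℂ) : ip (x - y) w = ip x w - ip y w := by
  simp [ip, sub_mul]

lemma ip_sub_right (x y w : Fin n → ℂ) : ip x (y - w) = ip x y - ip x w := by
  simp [ip, mul_sub]

lemma ip_self (y : Fin n → ℂ) : ip y y = (H4.sq y : ℝ) := by
  simp [ip, H4.sq, Complex.mul_conj']

lemma ip_conj (y w : Fin n → ℂ) : conj (ip y w) = ip w y := by
  simp [ip, mul_comm]

lemma sq_proj (hy : y ≠ 0) (x : Fin n → ℂ) :
    H4.sq (x - (ip x y / H4.sq y) • y) = H4.sq x - ‖ip x y‖ ^ 2 / H4.sq y := by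
  have h : ((H4.sq y : ℝ) : ℂ) ≠ 0 := by exact_mod_cast (sq_pos' hy).ne'
  apply Complex.ofReal_injective
  rw [← ip_self, ip_sub_left, ip_sub_right, ip_sub_right, ip_smul_left, ip_smul_left,
    ip_smul_right, ip_smul_right, ip_self, ip_self, ← ip_conj x y]
  push_cast
  rw [← Complex.mul_conj']
  simp only [map_div₀, Complex.conj_ofReal]
  field_simp
  ring

lemma cs (x y : Fin n → ℂ) : ‖ip x y‖ ^ 2 ≤ H4.sq x * H4.sq y := by
  by_cases hy : y = 0
  · simp [hy, ip, H4.sq]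
  have := sq_nonneg' (x - (ip x y / H4.sq y) • y)
  rw [sq_proj hy, sub_nonneg, div_le_iff₀ (sq_pos' hy)] at this
  exact this

lemma d2_mul (hx : x ≠ 0) (hy : y ≠ 0) :
    d2 x y * H4.sq x = H4.sq (x - (ip x y / H4.sq y) • y) := by
  have := sq_pos' hx
  have := sq_pos' hy
  rw [sq_proj hy, d2]
  field_simp

lemma d2_le (hx : x ≠ 0) (hy : y ≠ 0) (a : ℂ) : d2 x y * H4.sq x ≤ H4.sq (x - a • y) := by
  have h : ((H4.sq y : ℝ) : ℂ) ≠ 0 := by exact_mod_cast (sq_pos' hy).ne'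
  have e : x - (ip x y / H4.sq y) • y = x - a • y - (ip (x - a • y) y / H4.sq y) • y := by
    rw [ip_sub_left, ip_smul_left, ip_self, sub_div, mul_div_cancel_right₀ _ h, sub_smul]
    abel
  rw [d2_mul hx hy, e, sq_proj hy]
  have := sq_pos' hy
  exact sub_le_self _ (by positivity)

lemma sq_add_le (u v : Fin n → ℂ) : H4.sq (u + v) ≤ 2 * H4.sq u + 2 * H4.sq v := by
  simp only [H4.sq, Finset.mul_sum, ← Finset.sum_add_distrib]
  refine Finset.sum_le_sum fun i _ => ?_
  have := norm_add_le (u i) (v i)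
  have h : ‖(u + v) i‖ ^ 2 ≤ (‖u i‖ + ‖v i‖) ^ 2 := by gcongr; exact this
  nlinarith [sq_nonneg (‖u i‖ - ‖v i‖)]

lemma d2_nonneg (hx : x ≠ 0) (hy : y ≠ 0) : 0 ≤ d2 x y := by
  have := sq_pos' hx
  have := sq_pos' hy
  rw [d2, sub_nonneg, div_le_one (by positivity)]
  exact cs x y

lemma d2_tri (hx : x ≠ 0) (hy : y ≠ 0) (hz : z ≠ 0) : d2 x z ≤ 2 * d2 x y + 2 * d2 y z := by
  have px := sq_pos' hx
  have py := sq_pos' hy
  set a := ip x y / H4.sq y with ha
  set b := ip y z / H4.sq z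
  have e : x - (a * b) • z = (x - a • y) + a • (y - b • z) := by
    rw [smul_sub, mul_smul]; abel
  have h1 := d2_le hx hz (a * b)
  rw [e] at h1
  have h2 := h1.trans (sq_add_le _ _)
  rw [sq_smul, ← d2_mul hx hy, ← d2_mul hy hz] at h2
  have h3 : ‖a‖ ^ 2 * H4.sq y ≤ H4.sq x := by
    rw [ha, norm_div, Complex.norm_real, Real.norm_eq_abs, abs_of_pos py, div_pow,
      div_mul_eq_mul_div, div_le_iff₀ (by positivity)]
    nlinarith [cs x y]
  have h4 := mul_le_mul_of_nonneg_left h3 (d2_nonneg hy hz)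
  refine le_of_mul_le_mul_right ?_ px
  nlinarith

lemma d2_smul {a b : ℂ} (ha : a ≠ 0) (hb : b ≠ 0) (x y : Fin n → ℂ) :
    d2 (a • x) (b • y) = d2 x y := by
  have := norm_pos_iff.2 ha
  have := norm_pos_iff.2 hb
  simp only [d2, sq_smul, ip_smul_left, ip_smul_right, norm_mul, Complex.norm_conj]
  congr 1
  by_cases h : H4.sq x * H4.sq y = 0
  · rcases mul_eq_zero.1 h with h | h <;> simp [h]
  · have := left_ne_zero_of_mul h
    have := right_ne_zero_of_mul h
    field_simp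

lemma sq_le_norm (y : Fin n → ℂ) : H4.sq y ≤ n * ‖y‖ ^ 2 := by
  have : ∑ i, ‖y i‖ ^ 2 ≤ ∑ _i : Fin n, ‖y‖ ^ 2 :=
    Finset.sum_le_sum fun i _ => by gcongr; exact norm_le_pi_norm y i
  simpa [H4.sq] using this

lemma norm_le_sq (y : Fin n → ℂ) : ‖y‖ ≤ √(H4.sq y) :=
  (pi_norm_le_iff_of_nonneg (sqrt_nonneg _)).2 fun i => le_sqrt_of_sq_le
    (Finset.single_le_sum (f := fun i => ‖y i‖ ^ 2) (fun _ _ => by positivity) (Finset.mem_univ i))

lemma ip_hol {O : Set ℂ} {F : ℂ → Fin n → ℂ} (hF : DifferentiableOn ℂ F O) (p : Fin n → ℂ) :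
    DifferentiableOn ℂ (fun z => ip (F z) p) O := by
  unfold ip
  exact DifferentiableOn.fun_sum fun i _ => (differentiableOn_pi.1 hF i).mul_const _

lemma logsq_cont {O : Set ℂ} {F : ℂ → Fin n → ℂ} (hF : Crv O F) :
    ContinuousOn (fun z => log (H4.sq (F z))) O := by
  refine ContinuousOn.log ?_ fun z hz => (sq_pos' (hF.2 z hz)).ne'
  have := hF.1.continuousOn
  unfold H4.sq
  fun_prop

/-- A unit vector in the direction of `y`. -/
lemma unit (hy : y ≠ 0) : ∃ (p : Fin n → ℂ) (a : ℂ), a ≠ 0 ∧ p = a • y ∧ H4.sq p = 1 ∧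
    ‖ip y p‖ ^ 2 = H4.sq y := by
  have h := sq_pos' hy
  have h2 := sqrt_pos.2 h
  refine ⟨_, ((√(H4.sq y))⁻¹ : ℝ), by exact_mod_cast (inv_pos.2 h2).ne', rfl, ?_, ?_⟩
  · rw [sq_smul, Complex.norm_real, Real.norm_eq_abs, sq_abs, inv_pow, sq_sqrt h.le]
    field_simp
  · rw [ip_smul_right, ip_self, Complex.conj_ofReal, norm_mul, Complex.norm_real,
      Complex.norm_real, Real.norm_eq_abs, Real.norm_eq_abs, mul_pow, sq_abs, sq_abs, inv_pow,
      sq_sqrt h.le]
    field_simp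

lemma log_le_pk {R ρ : ℝ} {f : ℂ → ℂ} {w : ℂ} (hf : Hol R f) (h : ρ < R) (hw : ‖w‖ < ρ)
    (h0 : f w ≠ 0) : log ‖f w‖ ≤ circleAverage (fun z => pk w z * log ‖f z‖) 0 ρ := by
  obtain ⟨N, a, g, -, hg, he, hz⟩ := factor hf ⟨w, mem_ball_zero_iff.2 (hw.trans h), h0⟩ h
  obtain ⟨n1, e1⟩ := log_fac he h0
  rw [pj hg he hz le_rfl h hw, e1]
  gcongr with i
  · exact norm_pos_iff.2 (n1 i)
  · exact le_hh _ hw

lemma avg_mul (a : ℝ) (f : ℂ → ℝ) (ρ : ℝ) :
    circleAverage (fun z => a * f z) 0 ρ = a * circleAverage f 0 ρ := by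
  simpa using circleAverage_fun_smul (a := a) (f := f) (c := 0) (R := ρ)

lemma two_log_le {a : ℂ} {s : ℝ} (ha : a ≠ 0) (h : ‖a‖ ^ 2 ≤ s) : 2 * log ‖a‖ ≤ log s := by
  have := log_le_log (pow_pos (norm_pos_iff.2 ha) 2) h
  rwa [log_pow] at this

lemma core {F : ℂ → Fin n → ℂ} {B : ℝ} (hF : Crv (ball 0 (3 / 4)) F)
    (hB : ∀ s, 0 < s → s ≤ 1 / 2 →
      circleAverage (fun z => log (H4.sq (F z))) 0 s ≤ log (H4.sq (F 0)) + B) :
    ∃ (φ : ℂ → ℂ) (p : Fin n → ℂ) (N : ℕ) (a : Fin N → ℂ), N * log (4 / 3) ≤ B / 2 ∧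
      H4.sq p = 1 ∧ (∀ j, ‖a j‖ ≤ 3 / 8) ∧ DifferentiableOn ℂ φ (ball 0 (3 / 8)) ∧
      (∀ z ∈ ball (0 : ℂ) (3 / 8), φ z ≠ 0 ∧ ip (φ z • F z) p = ∏ j, (z - a j)) ∧
      ∀ z, ‖z‖ ≤ 1 / 4 → log (H4.sq (φ z • F z)) ≤ 9 * B := by
  have F0 := hF.2 0 (mem_ball_self (by norm_num))
  obtain ⟨p, -, -, -, p1, p2⟩ := unit F0
  set h : ℂ → ℂ := fun z => ip (F z) p with hh
  have hH : Hol (3 / 4) h := ip_hol hF.1 p
  have h0 : h 0 ≠ 0 := fun e => by
    have : ‖h 0‖ ^ 2 = H4.sq (F 0) := p2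
    rw [e] at this
    exact (sq_pos' F0).ne (by simpa using this)
  have hN : NZ (3 / 4) h := ⟨0, mem_ball_self (by norm_num), h0⟩
  have l0 : 2 * log ‖h 0‖ = log (H4.sq (F 0)) := by rw [← p2, log_pow]; rfl
  have hle : ∀ z, h z ≠ 0 → 2 * log ‖h z‖ ≤ log (H4.sq (F z)) := fun z hz =>
    two_log_le hz (by simpa [p1] using cs (F z) p)
  have iu : ∀ s, 0 < s → s < 3 / 4 → CircleIntegrable (fun z => log (H4.sq (F z))) 0 s :=
    fun s a b => ((logsq_cont hF).mono (sph_sub a b)).circleIntegrable'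
  have ih : ∀ s, 0 < s → s < 3 / 4 → CircleIntegrable (fun z => 2 * log ‖h z‖) 0 s :=
    fun s a b => (hH.int a b).const_smul (a := (2 : ℝ))
  obtain ⟨N, a, e, ha, he, hf, e0⟩ := factor hH hN (ρ := 3 / 8) (by norm_num)
  have hP : Hol (3 / 4) fun z => ∏ i, (z - a i) := by
    apply Differentiable.differentiableOn; fun_prop
  refine ⟨fun z => (e z)⁻¹, p, N, a, ?_, p1, ha, ?_, ?_, ?_⟩
  · obtain ⟨n1, e1⟩ := log_fac hf h0
    have m1 := avg_mono_off (zeros_fin hH hN (ρ := 1 / 2) (by norm_num)) (by norm_num)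
      (ih (1 / 2) (by norm_num) (by norm_num)) (iu (1 / 2) (by norm_num) (by norm_num))
      fun z hz hZ => hle z fun c => hZ ⟨hz.le, c⟩
    rw [avg_mul] at m1
    have m2 : av h (1 / 2) = av (fun z => ∏ i, (z - a i)) (1 / 2) + av e (1 / 2) := by
      rw [← av_mul hP he ⟨0, mem_ball_self (by norm_num), Finset.prod_ne_zero_iff.2 fun i _ => n1 i⟩
        ⟨0, mem_ball_self (by norm_num), e0 0 (by norm_num)⟩ (by norm_num) (by norm_num)]
      exact congrArg (av · _) (funext hf)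
    have m3 := av_eq (f := fun z => ∏ i, (z - a i)) (g := fun _ => 1) (a := a) (R := 1)
      (ρ := 1 / 2) (ρ₀ := 1 / 2) (differentiableOn_const _) (by simp) (by simp) (by norm_num) le_rfl
      (by norm_num)
    have m4 := le_av he (ρ := 1 / 2) (by norm_num) (by norm_num) (e0 0 (by norm_num))
    have m5 : ∑ i : Fin N, (log ‖0 - a i‖ + log (4 / 3)) ≤ ∑ i, log (max (1 / 2) ‖a i‖) := by
      refine Finset.sum_le_sum fun i _ => ?_
      have := norm_pos_iff.2 (n1 i)
      rw [← log_mul this.ne' (by norm_num)]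
      refine log_le_log (by positivity) (le_trans ?_ (le_max_left _ _))
      rw [zero_sub, norm_neg]
      linarith [ha i]
    have m6 := hB (1 / 2) (by norm_num) le_rfl
    rw [Finset.sum_add_distrib, Finset.sum_const, Finset.card_fin, nsmul_eq_mul] at m5
    simp only [norm_one, log_one, zero_add] at m3
    unfold av at *
    linarith
  · exact (he.mono (ball_subset_ball (by norm_num))).inv fun z hz =>
      e0 z (mem_ball_zero_iff.1 hz).le
  · intro z hz
    have := e0 z (mem_ball_zero_iff.1 hz).le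
    refine ⟨inv_ne_zero this, ?_⟩
    rw [ip_smul_left]
    change (e z)⁻¹ * h z = _
    rw [hf]
    field_simp
  · intro w hw
    set G : ℂ → Fin n → ℂ := fun z => (e z)⁻¹ • F z with hG
    have G0 : ∀ z : ℂ, ‖z‖ ≤ 3 / 8 → G z ≠ 0 := fun z hz =>
      smul_ne_zero (inv_ne_zero (e0 z hz)) (hF.2 z (mem_ball_zero_iff.2 (by linarith)))
    have hk : Hol (3 / 8) fun z => ip (G z) (G w) := ip_hol
      (((he.mono (ball_subset_ball (by norm_num))).inv fun z hz =>
        e0 z (mem_ball_zero_iff.1 hz).le).smul (hF.1.mono (ball_subset_ball (by norm_num)))) _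
    have pw := sq_pos' (G0 w (by linarith))
    have kw : ‖ip (G w) (G w)‖ = H4.sq (G w) := by
      rw [ip_self, Complex.norm_real, Real.norm_eq_abs, abs_of_pos pw]
    have k0 : ip (G w) (G w) ≠ 0 := norm_pos_iff.1 (kw ▸ pw)
    have hw' : ‖w‖ < 5 / 16 := by linarith
    have m1 := log_le_pk hk (ρ := 5 / 16) (by norm_num) hw' k0
    set L := log (H4.sq (G w)) with hL
    have i1 := pk_int hw' (circleIntegrable_const (L / 2) 0 (5 / 16))
    have i2 := iu (5 / 16) (by norm_num) (by norm_num)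
    have i3 := ih (5 / 16) (by norm_num) (by norm_num)
    have i4 : CircleIntegrable (fun z => 9 / 2 * (log (H4.sq (F z)) - 2 * log ‖h z‖)) 0 (5 / 16) :=
      (i2.sub i3).const_smul (a := (9 / 2 : ℝ))
    have m2 := avg_mono_off ((zeros_fin hH hN (ρ := 5 / 16) (by norm_num)).union
      (zeros_fin hk ⟨w, mem_ball_zero_iff.2 (by linarith), k0⟩ (ρ := 5 / 16) (by norm_num)))
      (by norm_num) (pk_int hw' (hk.int (by norm_num) (by norm_num))) (i1.add i4)
      fun z hz hZ => by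
        have z1 : h z ≠ 0 := fun c => hZ (.inl ⟨hz.le, c⟩)
        have z2 : ip (G z) (G w) ≠ 0 := fun c => hZ (.inr ⟨hz.le, c⟩)
        have z3 := e0 z (by linarith)
        have z4 := sq_pos' (hF.2 z (mem_ball_zero_iff.2 (by linarith)))
        have b1 : 0 ≤ pk w z := le_trans (div_nonneg (by linarith) (by positivity)) (le_pk hw' hz)
        have b2 : pk w z ≤ 9 := (pk_le hw' hz).trans (by
          rw [div_le_iff₀ (by linarith)]; linarith)
        have b3 := two_log_le z2 (cs _ _)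
        rw [log_mul (sq_pos' (G0 z (by linarith))).ne' pw.ne'] at b3
        have b4 : log (H4.sq (G z)) = log (H4.sq (F z)) - 2 * log ‖e z‖ := by
          rw [hG, sq_smul, log_mul (by simpa using z3) z4.ne', log_pow, norm_inv, log_inv]
          push_cast; ring
        have b5 : log ‖h z‖ ≤ log ‖e z‖ := by
          refine log_le_log (norm_pos_iff.2 z1) ?_
          rw [hf, norm_mul, norm_prod]
          refine mul_le_of_le_one_left (norm_nonneg _) (Finset.prod_le_one (fun _ _ =>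
            norm_nonneg _) fun i _ => ?_)
          linarith [norm_sub_le z (a i), ha i]
        have b6 := hle z z1
        have b7 : log ‖ip (G z) (G w)‖ ≤ L / 2 + (log (H4.sq (F z)) - 2 * log ‖h z‖) / 2 := by
          linarith
        have b8 := mul_le_mul_of_nonneg_left b7 b1
        have b9 := mul_le_mul_of_nonneg_right b2 (sub_nonneg.2 b6)
        simp only [Pi.add_apply]
        nlinarith
    rw [circleAverage_add i1 i4, avg_mul, circleAverage_fun_sub i2 i3, avg_mul,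
      pk_harm hw' (u := fun _ => L / 2) (fun _ _ => InnerProductSpace.harmonicAt_const _)] at m2
    have m3 := le_av hH (ρ := 5 / 16) (by norm_num) (by norm_num) h0
    have m4 := hB (5 / 16) (by norm_num) (by norm_num)
    rw [kw] at m1
    unfold av at m3
    linarith

end Pool.Agent.MP_c69980_ag.H84
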