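import Pool.Agent.MP_c69980_ag.H84.NL

/-!
Quantisation of the area inside a neck.
-/

set_option autoImplicit false

noncomputable section

namespace Pool.Agent.MP_c69980_ag.H84

open Metric Filter Topology MeasureTheory Set Real
open scoped ENNReal ComplexConjugate
open H4 H60

lemma chain : ∃ C : ℝ, 0 < C ∧ ∀ (D : ℂ → ℂ → ℝ) (η : ℝ), 0 ≤ η →
    (∀ a b c : ℂ, ‖a‖ ≤ 2 → ‖b‖ ≤ 2 → ‖c‖ ≤ 2 → D a c ≤ 2 * D a b + 2 * D b c) →
    (∀ a b : ℂ, 1 ≤ ‖b‖ → ‖b‖ ≤ 2 → ‖a - b‖ < 1 / 32 → D a b ≤ η) →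
    ∀ z : ℂ, 1 ≤ ‖z‖ → ‖z‖ ≤ 2 → D z 1 ≤ C * η := by
  obtain ⟨L, hL⟩ : ∃ L : ℕ, (300 : ℝ) ≤ L := ⟨300, by norm_num⟩
  refine ⟨4 ^ L, by positivity, fun D η η0 tri step z z1 z2 => ?_⟩
  have L0 : (0 : ℝ) < L := by linarith
  set ρ : ℕ → ℝ := fun k => 1 + (‖z‖ - 1) / L * k with hρ
  set γ : ℕ → ℂ := fun k => ρ k * Complex.exp (Complex.I * (z.arg / L * k : ℝ)) with hγ
  have q0 : 0 ≤ (‖z‖ - 1) / L := div_nonneg (by linarith) L0.le
  have r1 : ∀ k, 1 ≤ ρ k := fun k => le_add_of_nonneg_right (by positivity)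
  have r2 : ∀ k ≤ L, ρ k ≤ 2 := fun k hk => by
    have : (‖z‖ - 1) / L * k ≤ (‖z‖ - 1) / L * L := by gcongr
    rw [div_mul_cancel₀ _ L0.ne'] at this
    simp only [hρ]; linarith
  have ng : ∀ k, ‖γ k‖ = ρ k := fun k => by
    simp only [hγ]
    rw [norm_mul, Complex.norm_exp_I_mul_ofReal, mul_one, Complex.norm_real, Real.norm_eq_abs,
      abs_of_pos (by linarith [r1 k])]
  have st : ∀ k ≤ L, ‖γ (k + 1) - γ k‖ < 1 / 32 := fun k hk => by
    have e : γ (k + 1) - γ k = ((‖z‖ - 1) / L : ℝ) *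
        Complex.exp (Complex.I * (z.arg / L * (k + 1 : ℕ) : ℝ)) +
        γ k * (Complex.exp (Complex.I * (z.arg / L : ℝ)) - 1) := by
      simp only [hγ, hρ]
      rw [mul_sub, mul_assoc, ← Complex.exp_add]
      push_cast
      ring_nf
    have a1 := Real.norm_exp_I_mul_ofReal_sub_one_le (x := z.arg / L)
    have a2 : ‖z.arg / L‖ ≤ 4 / 300 := by
      rw [norm_div, Real.norm_eq_abs, Real.norm_eq_abs, abs_of_pos L0]
      gcongr
      exact (Complex.abs_arg_le_pi z).trans pi_le_four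
    have a3 : (‖z‖ - 1) / L ≤ 1 / 300 := by gcongr; linarith
    rw [e]
    refine (norm_add_le _ _).trans_lt ?_
    rw [norm_mul, norm_mul, Complex.norm_exp_I_mul_ofReal, mul_one, Complex.norm_real,
      Real.norm_eq_abs, abs_of_nonneg q0, ng]
    have := mul_le_mul (r2 k hk) (a1.trans a2) (norm_nonneg _) (by norm_num)
    linarith
  have key : ∀ k ≤ L, D (γ k) 1 ≤ 4 ^ k * η := by
    intro k
    induction k with
    | zero => intro _; simpa [hγ, hρ] using step 1 1 (by simp) (by simp) (by simp)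
    | succ k ih =>
      intro hk
      have hk' : k ≤ L := by omega
      have a1 := tri (γ (k + 1)) (γ k) 1 (ng _ ▸ r2 _ hk) (ng _ ▸ r2 _ hk') (by simp)
      have a2 := step _ _ (ng k ▸ r1 k) (ng k ▸ r2 _ hk') (st k hk')
      have a3 := ih hk'
      have a4 : η ≤ 4 ^ k * η := le_mul_of_one_le_left η0 (one_le_pow₀ (by norm_num))
      rw [pow_succ]
      linarith
  have e : γ L = z := by
    simp only [hγ, hρ]
    rw [div_mul_cancel₀ _ L0.ne', div_mul_cancel₀ _ L0.ne', mul_comm Complex.I, add_sub_cancel]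
    exact Complex.norm_mul_exp_arg_mul_I z
  exact e ▸ key L le_rfl

variable {n : ℕ} {F : ℂ → Fin n → ℂ}

lemma rep_diff (hQ : LapQStmt) (hR : RepStmt) (hF : Crv (ball 0 8) F) {m : ℝ} (m0 : 0 ≤ m)
    (hm : mu (lam F) (ball 0 4 \ ball 0 (1 / 2)) ≤ ENNReal.ofReal m) : ∃ E, 0 ≤ E ∧ E ≤ 4 * m ∧
    2 * π * (circleAverage (fun z => log (H4.sq (F z))) 0 2 -
      circleAverage (fun z => log (H4.sq (F z))) 0 1) =
      4 * log 2 * (mu (lam F) (ball 0 1)).toReal + E := by
  obtain ⟨q1, q2, q3⟩ := hQ n _ _ isOpen_ball hF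
  obtain ⟨a1, a2⟩ := hR _ _ 0 1 isOpen_ball q1 one_pos (closedBall_subset_ball (by norm_num))
  obtain ⟨b1, b2⟩ := hR _ _ 0 2 isOpen_ball q1 two_pos (closedBall_subset_ball (by norm_num))
  set u := fun z => log (H4.sq (F z))
  have s12 : ball (0 : ℂ) 1 ⊆ ball 0 2 := ball_subset_ball (by norm_num)
  have s2 : ball (0 : ℂ) 2 ⊆ ball 0 8 := ball_subset_ball (by norm_num)
  have ms : MeasurableSet (ball (0 : ℂ) 2 \ ball 0 1) := measurableSet_ball.diff measurableSet_ball
  have nn : ∀ z ∈ ball (0 : ℂ) 2 \ ball 0 1, 0 ≤ log (2 / ‖z - 0‖) * lap u z := fun z hz =>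
    mul_nonneg (log_div_nonneg (mem_ball_iff_norm.1 hz.1).le)
      (by rw [q3 z (s2 hz.1)]; linarith [q2.2 z (s2 hz.1)])
  refine ⟨∫ z in ball 0 2 \ ball 0 1, log (2 / ‖z - 0‖) * lap u z, setIntegral_nonneg ms nn, ?_, ?_⟩
  · rw [← ENNReal.ofReal_le_ofReal_iff (by positivity), ofReal_integral_eq_lintegral_ofReal
      (b1.mono_set sdiff_subset) ((ae_restrict_mem ms).mono nn), ENNReal.ofReal_mul (by norm_num)]
    refine le_trans ?_ (mul_le_mul_right hm _)
    rw [mu, ← lintegral_const_mul' _ _ ENNReal.ofReal_ne_top]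
    refine le_trans (setLIntegral_mono' ms fun z hz => ?_) (lintegral_mono_set
      (sdiff_subset_sdiff (ball_subset_ball (by norm_num)) (ball_subset_ball (by norm_num))))
    rw [q3 z (s2 hz.1), ← ENNReal.ofReal_mul (by norm_num)]
    refine ENNReal.ofReal_le_ofReal (mul_le_of_le_one_left (by linarith [q2.2 z (s2 hz.1)]) ?_)
    have z1 : 1 ≤ ‖z‖ := by simpa using hz.2
    rw [sub_zero]
    have := log_le_sub_one_of_pos (by positivity : 0 < 2 / ‖z‖)
    have : 2 / ‖z‖ ≤ 2 := div_le_self (by norm_num) z1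
    linarith
  · have e1 : (mu (lam F) (ball 0 1)).toReal = ∫ z in ball 0 1, lam F z :=
      (integral_eq_lintegral_of_nonneg_ae
        ((ae_restrict_mem measurableSet_ball).mono fun z hz => q2.2 z (s2 (s12 hz)))
        ((q2.1.mono (s12.trans s2)).aestronglyMeasurable measurableSet_ball)).symm
    have e2 : (∫ z in ball (0 : ℂ) 1, log (2 / ‖z - 0‖) * lap u z) -
        ∫ z in ball (0 : ℂ) 1, log (1 / ‖z - 0‖) * lap u z =
        4 * log 2 * ∫ z in ball 0 1, lam F z := by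
      rw [← integral_sub (b1.mono_set s12) a1, ← integral_const_mul]
      refine setIntegral_congr_ae measurableSet_ball ((Measure.ae_ne volume 0).mono fun z z0 hz => ?_)
      have : ‖z‖ ≠ 0 := by simpa using z0
      rw [q3 z (s2 (s12 hz)), sub_zero, log_div (by norm_num) this, log_div (by norm_num) this,
        log_one]
      ring
    rw [setIntegral_sdiff measurableSet_ball b1 s12, e1, ← e2]
    have a3 := (eq_inv_mul_iff_mul_eq₀ (by positivity)).1 a2
    have b3 := (eq_inv_mul_iff_mul_eq₀ (by positivity)).1 b2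
    linarith

lemma av_diff (hF : Crv (ball 0 8) F) {η : ℝ} (h1 : η ≤ 1 / 2)
    (hd : ∀ z : ℂ, 1 ≤ ‖z‖ → ‖z‖ ≤ 2 → d2 (F z) (F 1) ≤ η) : ∃ N : ℕ,
    |circleAverage (fun z => log (H4.sq (F z))) 0 2 -
      circleAverage (fun z => log (H4.sq (F z))) 0 1 - 2 * N * log 2| ≤ 2 * η := by
  have mb : ∀ z : ℂ, ‖z‖ ≤ 2 → z ∈ ball (0 : ℂ) 8 := fun z hz => mem_ball_zero_iff.2 (by linarith)
  have F1 := hF.2 1 (mb 1 (by simp))
  obtain ⟨p, α, α0, p0, p1, -⟩ := unit F1
  set h : ℂ → ℂ := fun z => ip (F z) p with hh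
  have hH : Hol 8 h := ip_hol hF.1 p
  have key : ∀ z : ℂ, 1 ≤ ‖z‖ → ‖z‖ ≤ 2 → h z ≠ 0 ∧ 2 * log ‖h z‖ ≤ log (H4.sq (F z)) ∧
      log (H4.sq (F z)) ≤ 2 * log ‖h z‖ + 2 * η := fun z z1 z2 => by
    have f0 := hF.2 z (mb z z2)
    have ps := sq_pos' f0
    have d1 := hd z z1 z2
    have d0 := d2_nonneg f0 F1
    have e : ‖h z‖ ^ 2 = (1 - d2 (F z) (F 1)) * H4.sq (F z) := by
      rw [← d2_smul one_ne_zero α0, one_smul, ← p0, d2, p1]
      field_simp
      ring
    set d := d2 (F z) (F 1)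
    have dp : 0 < 1 - d := by linarith
    have h0 : h z ≠ 0 := fun c => by
      rw [c, norm_zero] at e
      nlinarith [mul_pos dp ps]
    have e2 := congrArg log e
    rw [log_pow, log_mul dp.ne' ps.ne'] at e2
    have a1 := log_le_sub_one_of_pos dp
    have a2 := one_sub_inv_le_log_of_pos dp
    have a3 : (1 - d)⁻¹ ≤ 1 + 2 * d := by
      rw [inv_le_iff_one_le_mul₀ dp]
      nlinarith
    push_cast at e2
    exact ⟨h0, by linarith, by linarith⟩
  have bd : ∀ s, 1 ≤ s → s ≤ 2 → 2 * av h s ≤ circleAverage (fun z => log (H4.sq (F z))) 0 s ∧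
      circleAverage (fun z => log (H4.sq (F z))) 0 s ≤ 2 * av h s + 2 * η := fun s s1 s2 => by
    have s0 : 0 < s := by linarith
    have iu : CircleIntegrable (fun z => log (H4.sq (F z))) 0 s :=
      ((logsq_cont hF).mono (sph_sub s0 (by linarith))).circleIntegrable'
    have ih : CircleIntegrable (fun z => 2 * log ‖h z‖) 0 s :=
      (hH.int s0 (by linarith)).const_smul (a := (2 : ℝ))
    have ic := circleIntegrable_const (2 * η) (0 : ℂ) s
    have m1 := avg_mono_off finite_empty s0 ih iu fun z hz _ => (key z (hz ▸ s1) (hz ▸ s2)).2.1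
    have m2 := avg_mono_off finite_empty s0 iu (ih.add ic)
      fun z hz _ => (key z (hz ▸ s1) (hz ▸ s2)).2.2
    rw [circleAverage_add ih ic, circleAverage_const, avg_mul] at m2
    rw [avg_mul] at m1
    exact ⟨m1, m2⟩
  obtain ⟨N, a, g, ha, hg, he, g0⟩ := factor hH ⟨1, mb 1 (by simp), (key 1 (by simp) (by simp)).1⟩
    (ρ := 2) (by norm_num)
  have a1 : ∀ i, ‖a i‖ ≤ 1 := fun i => by
    by_contra c
    refine (key _ (not_le.1 c).le (ha i)).1 ?_
    rw [he, Finset.prod_eq_zero (Finset.mem_univ i) (sub_self _), zero_mul]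
  have e1 := av_eq hg he g0 one_pos (by norm_num) (by norm_num)
  have e2 := av_eq hg he g0 two_pos le_rfl (by norm_num)
  simp only [max_eq_left (a1 _), log_one, Finset.sum_const_zero] at e1
  simp only [max_eq_left (ha _), Finset.sum_const, Finset.card_fin, nsmul_eq_mul] at e2
  refine ⟨N, abs_le.2 ?_⟩
  have := bd 1 le_rfl (by norm_num)
  have := bd 2 (by norm_num) le_rfl
  constructor <;> linarith

theorem quant (hQ : LapQStmt) (hR : RepStmt) (hE : EpsStmt) (hS : ScaleStmt) : QuantStmt := by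
  intro n
  obtain ⟨ε, A, e0, A0, hA⟩ := hE n
  obtain ⟨C, C0, hC⟩ := chain
  refine ⟨min ε (1 / (2 * (C * A))), 8 * (C * A) + 2, by positivity, by positivity,
    fun F c t m ht hF m0 m1 hm => ?_⟩
  have sc := scale hS (F := F) (c := c) ht
  have hG := (sc 8).1 (by rwa [mul_comm])
  set G := fun w : ℂ => F (c + t * w) with hG'
  have e1 : mu (lam G) (ball 0 4 \ ball 0 (1 / 2)) ≤ ENNReal.ofReal m := by
    rw [← (sc 4).2, ← (sc (1 / 2)).2, ← preimage_sdiff, (hS n F c t ht).2.1]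
    rwa [mul_comm t, mul_one_div]
  have e2 : mu (lam F) (ball c t) = mu (lam G) (ball 0 1) := by
    rw [← (sc 1).2, (hS n F c t ht).2.1, mul_one]
  have mb : ∀ z : ℂ, ‖z‖ ≤ 2 → G z ≠ 0 := fun z hz => hG.2 z (mem_ball_zero_iff.2 (by linarith))
  have hd := hC (fun a b => d2 (G a) (G b)) (A * m) (by positivity)
    (fun a b c ha hb hc => d2_tri (mb a ha) (mb b hb) (mb c hc)) fun a b b1 b2 hab => by
      have sb : ball b (1 / 2) ⊆ ball 0 4 \ ball 0 (1 / 2) := fun w hw => by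
        have := mem_ball_iff_norm.1 hw
        have := abs_le.1 (abs_norm_sub_norm_le w b)
        simp only [Set.mem_sdiff, mem_ball_zero_iff, not_lt]
        constructor <;> linarith
      have sb' : ball b (1 / 2) ⊆ ball 0 8 :=
        sb.trans (sdiff_subset.trans (ball_subset_ball (by norm_num)))
      exact (hA G b (1 / 2) m (by norm_num) ⟨hG.1.mono sb', fun z hz => hG.2 z (sb' hz)⟩ m0
        (m1.trans (min_le_left _ _)) ((lintegral_mono_set sb).trans e1) a
        (mem_ball_iff_norm.2 (by linarith))).2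
  have k0 : 0 ≤ C * (A * m) := by positivity
  have k1 : C * (A * m) ≤ 1 / 2 := by
    have := m1.trans (min_le_right _ _)
    rw [le_div_iff₀ (by positivity)] at this
    linarith
  obtain ⟨N, hN⟩ := av_diff hG k1 hd
  obtain ⟨E, E0, E1, hE⟩ := rep_diff hQ hR hG m0 e1
  refine ⟨N, ?_⟩
  rw [e2]
  set x := (mu (lam G) (ball 0 1)).toReal
  set δ := circleAverage (fun z => log (H4.sq (G z))) 0 2 -
    circleAverage (fun z => log (H4.sq (G z))) 0 1
  have l2 : 1 / 2 ≤ log 2 := by linarith [log_two_gt_d9]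
  have f1 : 4 * log 2 * (x - π * N) = 2 * π * (δ - 2 * N * log 2) - E := by linarith
  have f2 : 4 * log 2 * |x - π * N| ≤ 2 * π * |δ - 2 * N * log 2| + E := by
    have := congrArg abs f1
    rw [abs_mul, abs_of_nonneg (by linarith)] at this
    rw [this]
    refine (abs_sub _ _).trans (le_of_eq ?_)
    rw [abs_mul, abs_of_nonneg E0, abs_of_nonneg (by positivity : 0 ≤ 2 * π)]
  have f3 := mul_le_mul pi_le_four hN (abs_nonneg _) (by norm_num)
  nlinarith [abs_nonneg (x - π * N)]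

end Pool.Agent.MP_c69980_ag.H84
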