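import Pool.Agent.MP_c69980_ag.H84.Alg

/-!
Normalisation of curves of bounded area and the small area estimate.
-/

set_option autoImplicit false

noncomputable section

namespace Pool.Agent.MP_c69980_ag.H84

open Metric Filter Topology MeasureTheory Set Real
open scoped ENNReal ComplexConjugate
open H4 H60

lemma pick (hL : LogSubStmt) : ∃ K : ℝ, 0 ≤ K ∧ ∀ (ν : ℂ → ℝ) (M : ℝ), 0 ≤ M →
    Den (ball 0 1) ν → mu ν (ball 0 1) ≤ ENNReal.ofReal M → ∃ c ∈ ball (0 : ℂ) (1 / 8),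
    ∫⁻ w in ball (0 : ℂ) (1 / 2), ENNReal.ofReal (log (1 / 2 / ‖w‖)) * ENNReal.ofReal (ν (c + w)) ≤
      ENNReal.ofReal (K * M) := by
  classical
  set k : ℂ → ℝ≥0∞ := fun w => ENNReal.ofReal (log (1 / 2 / ‖w‖)) with hk
  have km : Measurable k := by rw [hk]; fun_prop
  set K₀ := ∫⁻ w in ball (0 : ℂ) (1 / 2), k w with hK
  have K1 : K₀ ≠ ∞ := by
    have h1 : IntegrableOn (fun z : ℂ => log ‖z‖) (ball 0 (1 / 2)) :=
      ((hL univ id isOpen_univ differentiableOn_id).1.integrableOn_compact_subset (subset_univ _)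
        (isCompact_closedBall 0 (1 / 2))).mono_set ball_subset_closedBall
    refine (lt_of_le_of_lt (lintegral_mono fun w => ?_) h1.2).ne
    rw [← ofReal_norm]
    refine ENNReal.ofReal_le_ofReal ?_
    by_cases hw : w = 0
    · simp [hw]
    · rw [log_div (by norm_num) (by simpa using hw), Real.norm_eq_abs]
      have : log (1 / 2) ≤ 0 := log_nonpos (by norm_num) (by norm_num)
      linarith [neg_le_abs (log ‖w‖)]
  set V := volume (ball (0 : ℂ) (1 / 8))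
  have V0 : V ≠ 0 := (measure_ball_pos _ _ (by norm_num)).ne'
  have V1 : V ≠ ∞ := measure_ball_lt_top.ne
  refine ⟨(K₀ / V).toReal, ENNReal.toReal_nonneg, fun ν M hM hν hm => ?_⟩
  set f : ℂ → ℝ := (ball (0 : ℂ) 1).piecewise ν 0 with hf
  have fm : Measurable f := hν.1.measurable_piecewise continuousOn_const measurableSet_ball
  have f1 : ∫⁻ z, ENNReal.ofReal (f z) ≤ ENNReal.ofReal M := by
    refine le_trans (le_of_eq ?_) hm
    rw [mu, ← lintegral_indicator measurableSet_ball]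
    refine lintegral_congr fun z => ?_
    by_cases hz : z ∈ ball (0 : ℂ) 1 <;> simp [hf, hz]
  have jm : Measurable (Function.uncurry fun c w : ℂ => k w * ENNReal.ofReal (f (c + w))) := by
    unfold Function.uncurry
    fun_prop
  obtain ⟨c, hc, h⟩ := exists_le_setLAverage (μ := volume) V0 V1
    (f := fun c => ∫⁻ w in ball (0 : ℂ) (1 / 2), k w * ENNReal.ofReal (f (c + w)))
    jm.lintegral_prod_right.aemeasurable
  refine ⟨c, hc, ?_⟩
  have e : ∫⁻ w in ball (0 : ℂ) (1 / 2), k w * ENNReal.ofReal (ν (c + w)) =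
      ∫⁻ w in ball (0 : ℂ) (1 / 2), k w * ENNReal.ofReal (f (c + w)) := by
    refine setLIntegral_congr_fun measurableSet_ball fun w hw => ?_
    have : c + w ∈ ball (0 : ℂ) 1 := by
      rw [mem_ball_zero_iff] at *
      linarith [norm_add_le c w]
    simp only [hf, piecewise_eq_of_mem _ _ _ this]
  rw [e]
  refine h.trans ?_
  rw [setLAverage_eq, ENNReal.ofReal_mul ENNReal.toReal_nonneg,
    ENNReal.ofReal_toReal (ENNReal.div_ne_top K1 V0), div_eq_mul_inv K₀, mul_right_comm,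
    ← div_eq_mul_inv]
  refine ENNReal.div_le_div_right ((setLIntegral_le_lintegral _ _).trans ?_) _
  rw [lintegral_lintegral_swap jm.aemeasurable, hK, ← lintegral_mul_const _ km]
  refine lintegral_mono fun w => ?_
  rw [lintegral_const_mul _ (by fun_prop),
    lintegral_add_right_eq_self (fun z => ENNReal.ofReal (f z)) w]
  exact mul_le_mul_right f1 _

lemma log_div_nonneg {s : ℝ} {w : ℂ} (hw : ‖w‖ ≤ s) : 0 ≤ log (s / ‖w‖) := by
  by_cases h : w = 0
  · simp [h]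
  · exact log_nonneg ((one_le_div (norm_pos_iff.2 h)).2 hw)

lemma log_div_le {s t : ℝ} {w : ℂ} (h0 : 0 < s) (h : s ≤ t) : log (s / ‖w‖) ≤ log (t / ‖w‖) := by
  by_cases hw : w = 0
  · simp [hw]
  · have := norm_pos_iff.2 hw
    gcongr

lemma prep (hQ : LapQStmt) (hR : RepStmt) (hL : LogSubStmt) : ∃ K : ℝ, 0 ≤ K ∧
    ∀ (n : ℕ) (F : ℂ → Fin n → ℂ) (M : ℝ), 0 ≤ M → Crv (ball 0 1) F →
    mu (lam F) (ball 0 1) ≤ ENNReal.ofReal M → ∃ c ∈ ball (0 : ℂ) (1 / 8),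
    Crv (ball 0 (3 / 4)) (fun z => F (c + z)) ∧ ∀ s, 0 < s → s ≤ 1 / 2 →
      circleAverage (fun z => log (H4.sq (F (c + z)))) 0 s ≤ log (H4.sq (F (c + 0))) + K * M := by
  obtain ⟨K, K0, hK⟩ := pick hL
  refine ⟨K, K0, fun n F M hM hF hm => ?_⟩
  obtain ⟨c, hc, h⟩ := hK _ M hM (hQ n _ F isOpen_ball hF).2.1 hm
  have sh : ∀ z ∈ ball (0 : ℂ) (3 / 4), c + z ∈ ball (0 : ℂ) 1 := fun z hz => by
    rw [mem_ball_zero_iff] at *
    linarith [norm_add_le c z]
  have hG : Crv (ball 0 (3 / 4)) fun z => F (c + z) :=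
    ⟨hF.1.comp (by fun_prop) sh, fun z hz => hF.2 _ (sh z hz)⟩
  refine ⟨c, hc, hG, fun s s0 s1 => ?_⟩
  obtain ⟨q1, q2, q3⟩ := hQ n _ _ isOpen_ball hG
  obtain ⟨r1, r2⟩ := hR _ _ 0 s isOpen_ball q1 s0 (closedBall_subset_ball (by linarith))
  have sb : ∀ z ∈ ball (0 : ℂ) s, z ∈ ball (0 : ℂ) (3 / 4) := ball_subset_ball (by linarith)
  have el : ∀ z, lam (fun z => F (c + z)) z = lam F (c + z) := fun z => by
    simp only [lam, deriv_comp_const_add]
  have h1 : ∫ z in ball (0 : ℂ) s, log (s / ‖z - 0‖) *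
      lap (fun z => log (H4.sq (F (c + z)))) z ≤ 4 * (K * M) := by
    rw [← ENNReal.ofReal_le_ofReal_iff (by positivity), ofReal_integral_eq_lintegral_ofReal r1
      ((ae_restrict_mem measurableSet_ball).mono fun z hz => mul_nonneg
        (log_div_nonneg (mem_ball_iff_norm.1 hz).le)
        (by rw [q3 z (sb z hz)]; linarith [q2.2 z (sb z hz)])),
      ENNReal.ofReal_mul (by norm_num)]
    refine le_trans ?_ (mul_le_mul_right h _)
    rw [← lintegral_const_mul' _ _ ENNReal.ofReal_ne_top]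
    refine le_trans (setLIntegral_mono' measurableSet_ball fun z hz => ?_)
      (lintegral_mono_set (ball_subset_ball s1))
    have := log_div_nonneg (mem_ball_zero_iff.1 hz).le
    rw [q3 z (sb z hz), el, sub_zero, mul_left_comm, ENNReal.ofReal_mul (by norm_num),
      ENNReal.ofReal_mul this]
    exact mul_le_mul_right (mul_le_mul_left (ENNReal.ofReal_le_ofReal (log_div_le s0 s1)) _) _
  have h2 : (2 * π)⁻¹ * (4 * (K * M)) ≤ K * M := by
    rw [← mul_assoc]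
    refine mul_le_of_le_one_left (by positivity) ?_
    rw [inv_mul_le_iff₀ (by positivity)]
    linarith [pi_gt_three]
  have h3 := mul_le_mul_of_nonneg_left h1 (by positivity : 0 ≤ (2 * π)⁻¹)
  linarith

lemma nl_one (hQ : LapQStmt) (hR : RepStmt) (hL : LogSubStmt) : ∃ K : ℝ, 0 ≤ K ∧
    ∀ (n : ℕ) (F : ℂ → Fin n → ℂ) (M : ℝ), 0 ≤ M → Crv (ball 0 1) F →
    mu (lam F) (ball 0 1) ≤ ENNReal.ofReal M →
    ∃ (φ : ℂ → ℂ) (p : Fin n → ℂ) (N : ℕ) (a : Fin N → ℂ), N * log (4 / 3) ≤ K * M ∧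
      H4.sq p = 1 ∧ (∀ j, ‖a j‖ ≤ 1) ∧ DifferentiableOn ℂ φ (ball 0 (1 / 8)) ∧
      ∀ z ∈ ball (0 : ℂ) (1 / 8), φ z ≠ 0 ∧ ip (φ z • F z) p = ∏ j, (z - a j) ∧
        log (H4.sq (φ z • F z)) ≤ 9 * (K * M) := by
  obtain ⟨K, K0, hK⟩ := prep hQ hR hL
  refine ⟨K, K0, fun n F M hM hF hm => ?_⟩
  obtain ⟨c, hc, hG, h⟩ := hK n F M hM hF hm
  obtain ⟨φ, p, N, a, h1, h2, h3, h4, h5, h6⟩ := core hG h
  rw [mem_ball_zero_iff] at hc
  have sh : ∀ z ∈ ball (0 : ℂ) (1 / 8), ‖z - c‖ ≤ 1 / 4 := fun z hz => by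
    rw [mem_ball_zero_iff] at hz
    linarith [norm_sub_le z c]
  have sh' : ∀ z ∈ ball (0 : ℂ) (1 / 8), z - c ∈ ball (0 : ℂ) (3 / 8) := fun z hz =>
    mem_ball_zero_iff.2 (by linarith [sh z hz])
  have := mul_nonneg K0 hM
  refine ⟨fun z => φ (z - c), p, N, fun j => c + a j, by linarith, h2, fun j => ?_,
    h4.comp (by fun_prop) sh', fun z hz => ⟨(h5 _ (sh' z hz)).1, ?_, ?_⟩⟩
  · linarith [norm_add_le c (a j), h3 j]
  · simpa [sub_sub] using (h5 _ (sh' z hz)).2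
  · simpa using h6 _ (sh z hz)

lemma scale {n : ℕ} (hS : ScaleStmt) {F : ℂ → Fin n → ℂ} {c : ℂ} {r : ℝ} (hr : 0 < r) (s : ℝ) :
    (Crv (ball c (r * s)) F → Crv (ball 0 s) fun w => F (c + r * w)) ∧
    (fun w : ℂ => c + r * w) ⁻¹' ball c (r * s) = ball 0 s := by
  have e : (fun w : ℂ => c + r * w) ⁻¹' ball c (r * s) = ball 0 s := by
    simpa using (hS n F c r hr).2.2 0 s
  have m : ∀ w ∈ ball (0 : ℂ) s, c + r * w ∈ ball c (r * s) := fun w hw => by rwa [← e] at hw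
  exact ⟨fun hF => ⟨hF.1.comp (by fun_prop) m, fun w hw => hF.2 _ (m w hw)⟩, e⟩

lemma unscale {c z : ℂ} {r s : ℝ} (hr : 0 < r) (hz : z ∈ ball c (r * s)) :
    (z - c) / r ∈ ball (0 : ℂ) s ∧ c + r * ((z - c) / r) = z := by
  have h : (r : ℂ) ≠ 0 := by exact_mod_cast hr.ne'
  refine ⟨?_, by field_simp; ring⟩
  rw [mem_ball_zero_iff, norm_div, Complex.norm_real, Real.norm_eq_abs, abs_of_pos hr,
    div_lt_iff₀' hr]
  exact mem_ball_iff_norm.1 hz

theorem nl (hQ : LapQStmt) (hR : RepStmt) (hL : LogSubStmt) (hS : ScaleStmt) : NLStmt := by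
  obtain ⟨K, K0, hK⟩ := nl_one hQ hR hL
  intro n M
  refine ⟨⌈K * max M 0 / log (4 / 3)⌉₊, √(exp (9 * (K * max M 0))), fun F c r hr hF hm => ?_⟩
  obtain ⟨s1, s2⟩ := scale hS (F := F) (c := c) hr 1
  rw [mul_one] at s1 s2
  obtain ⟨φ, p, N, a, h1, h2, h3, h4, h5⟩ := hK n _ (max M 0) (le_max_right _ _) (s1 hF) (by
    rw [← s2, (hS n F c r hr).2.1]
    exact hm.trans (ENNReal.ofReal_le_ofReal (le_max_left _ _)))
  have h : (r : ℂ) ≠ 0 := by exact_mod_cast hr.ne'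
  have e : r / 8 = r * (1 / 8) := by ring
  refine ⟨fun z => φ ((z - c) / r), p, N, fun j => c + r * a j, ?_, h2, fun j => ?_,
    h4.comp (by fun_prop) fun z hz => (unscale hr (e ▸ hz)).1, fun z hz => ?_⟩
  · rw [← le_div_iff₀ (log_pos (by norm_num))] at h1
    exact_mod_cast h1.trans (Nat.le_ceil _)
  · rw [mem_closedBall_iff_norm, add_sub_cancel_left, norm_mul, Complex.norm_real,
      Real.norm_eq_abs, abs_of_pos hr]
    exact mul_le_of_le_one_right hr.le (h3 j)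
  · obtain ⟨u1, u2⟩ := unscale hr (e ▸ hz)
    obtain ⟨v1, v2, v3⟩ := h5 _ u1
    rw [u2] at v2 v3
    refine ⟨v1, (norm_le_sq _).trans (sqrt_le_sqrt ?_), v2.trans ?_⟩
    · exact (le_exp_log _).trans (exp_le_exp.2 v3)
    · exact Finset.prod_congr rfl fun j _ => by field_simp; ring

lemma eps_one (hQ : LapQStmt) (hM : MinorStmt) (hR : RepStmt) (hL : LogSubStmt) (n : ℕ) :
    ∃ ε A : ℝ, 0 < ε ∧ 0 < A ∧ ∀ (F : ℂ → Fin n → ℂ) (m : ℝ), Crv (ball 0 1) F → 0 ≤ m → m ≤ ε →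
    mu (lam F) (ball 0 1) ≤ ENNReal.ofReal m →
    ∀ z ∈ ball (0 : ℂ) (1 / 16), lam F z ≤ A * m ∧ d2 (F z) (F 0) ≤ A * m := by
  obtain ⟨K, K0, hK⟩ := nl_one hQ hR hL
  refine ⟨1 / (9 * (K + 1)), 1024 * (n + 1) * (18 * (K + 1)), by positivity, by positivity,
    fun F m hF m0 m1 hm z hz => ?_⟩
  obtain ⟨φ, p, N, a, h1, h2, -, h4, h5⟩ := hK n F m m0 hF hm
  have k0 := mul_nonneg K0 m0
  have k1 : 9 * (K * m) ≤ 1 := by
    rw [le_div_iff₀ (by positivity)] at m1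
    nlinarith
  obtain rfl : N = 0 := by
    by_contra hN
    have a1 : (1 : ℝ) ≤ N := by exact_mod_cast Nat.one_le_iff_ne_zero.2 hN
    have a2 := one_sub_inv_le_log_of_pos (by norm_num : (0 : ℝ) < 4 / 3)
    norm_num at a2
    nlinarith
  set G : ℂ → Fin n → ℂ := fun z => φ z • F z with hG
  have sb : ball (0 : ℂ) (1 / 8) ⊆ ball 0 1 := ball_subset_ball (by norm_num)
  have G1 : DifferentiableOn ℂ G (ball 0 (1 / 8)) := h4.smul (hF.1.mono sb)
  have G2 : ∀ w ∈ ball (0 : ℂ) (1 / 8), G w ≠ 0 ∧ 1 ≤ H4.sq (G w) ∧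
      ‖G w - p‖ ≤ √(18 * (K * m)) := fun w hw => by
    obtain ⟨v1, v2, v3⟩ := h5 w hw
    have g0 : G w ≠ 0 := smul_ne_zero v1 (hF.2 w (sb hw))
    have p0 : p ≠ 0 := by rintro rfl; simp [H4.sq] at h2
    have v4 : ip (G w) p = 1 := by simpa using v2
    have e := sq_proj p0 (G w)
    simp only [v4, h2, Complex.ofReal_one, div_one, one_smul, norm_one, one_pow] at e
    refine ⟨g0, by linarith [sq_nonneg' (G w - p)], (norm_le_sq _).trans (sqrt_le_sqrt ?_)⟩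
    have a1 := (le_exp_log _).trans (exp_le_exp.2 v3)
    have a2 := abs_exp_sub_one_le (x := 9 * (K * m)) (by rwa [abs_of_nonneg (by positivity)])
    rw [abs_of_nonneg (by positivity : 0 ≤ 9 * (K * m))] at a2
    linarith [le_abs_self (exp (9 * (K * m)) - 1)]
  have z1 := mem_ball_zero_iff.1 hz
  have z2 : z ∈ ball (0 : ℂ) (1 / 8) := ball_subset_ball (by norm_num) hz
  have z0 : (0 : ℂ) ∈ ball (0 : ℂ) (1 / 8) := mem_ball_self (by norm_num)
  have n0 : (0 : ℝ) ≤ n := Nat.cast_nonneg n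
  have s0 := sq_sqrt (by positivity : 0 ≤ 18 * (K * m))
  constructor
  · have cb : closedBall z (1 / 32) ⊆ ball 0 (1 / 8) := fun w hw => by
      rw [mem_ball_zero_iff]
      linarith [norm_sub_norm_le w z, mem_closedBall_iff_norm.1 hw]
    have d1 := Complex.norm_deriv_le_of_forall_mem_sphere_norm_le (f := fun w => G w - p)
      (by norm_num : (0 : ℝ) < 1 / 32) (DifferentiableOn.diffContOnCl ((G1.sub_const p).mono (by
        rw [closure_ball _ (by norm_num)]; exact cb)))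
      fun w hw => (G2 w (cb (sphere_subset_closedBall hw))).2.2
    rw [deriv_sub_const] at d1
    have d2 : deriv G z = φ z • deriv F z + deriv φ z • F z :=
      ((h4.differentiableAt (isOpen_ball.mem_nhds z2)).hasDerivAt.smul
        (hF.1.differentiableAt (isOpen_ball.mem_nhds (sb z2))).hasDerivAt).deriv
    have d3 := (hM n (F z) (deriv F z) (hF.2 z (sb z2))).2.2.2.1 (φ z) (deriv φ z) (h5 z z2).1
    rw [← d2] at d3
    have d4 := (hM n (G z) (deriv G z) (G2 z z2).1).2.2.1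
    have d5 : H4.sq (deriv G z) / H4.sq (G z) ≤ H4.sq (deriv G z) :=
      div_le_self (sq_nonneg' _) (G2 z z2).2.1
    have d6 : ‖deriv G z‖ ^ 2 ≤ (√(18 * (K * m)) / (1 / 32)) ^ 2 := by gcongr
    rw [div_pow, s0] at d6
    have d7 := (sq_le_norm (deriv G z)).trans (mul_le_mul_of_nonneg_left d6 n0)
    rw [lam, ← d3]
    refine (d4.trans d5).trans (d7.trans ?_)
    rw [show (1 / 32 : ℝ) ^ 2 = 1024⁻¹ by norm_num, div_inv_eq_mul]
    nlinarith [mul_nonneg n0 m0, mul_nonneg n0 k0]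
  · rw [← d2_smul (h5 z z2).1 (h5 0 z0).1]
    have d1 := d2_le (G2 z z2).1 (G2 0 z0).1 1
    have d2 : ‖G z - (1 : ℂ) • G 0‖ ≤ 2 * √(18 * (K * m)) := by
      rw [one_smul, ← sub_sub_sub_cancel_right _ _ p]
      linarith [norm_sub_le (G z - p) (G 0 - p), (G2 z z2).2.2, (G2 0 z0).2.2]
    have d3 : ‖G z - (1 : ℂ) • G 0‖ ^ 2 ≤ (2 * √(18 * (K * m))) ^ 2 := by gcongr
    rw [mul_pow, s0] at d3
    have d4 := d1.trans ((sq_le_norm _).trans (mul_le_mul_of_nonneg_left d3 n0))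
    have d5 := le_mul_of_one_le_right (d2_nonneg (G2 z z2).1 (G2 0 z0).1) (G2 z z2).2.1
    refine (d5.trans d4).trans ?_
    nlinarith [mul_nonneg n0 m0, mul_nonneg n0 k0]

theorem eps (hQ : LapQStmt) (hM : MinorStmt) (hR : RepStmt) (hL : LogSubStmt) (hS : ScaleStmt) :
    EpsStmt := fun n => by
  obtain ⟨ε, A, e0, A0, h⟩ := eps_one hQ hM hR hL n
  refine ⟨ε, A, e0, A0, fun F c r m hr hF m0 m1 hm z hz => ?_⟩
  obtain ⟨s1, s2⟩ := scale hS (F := F) (c := c) hr 1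
  rw [mul_one] at s1 s2
  obtain ⟨u1, u2⟩ := unscale hr ((by ring : r / 16 = r * (1 / 16)) ▸ hz)
  have := h _ m (s1 hF) m0 m1 (by rwa [← s2, (hS n F c r hr).2.1]) _ u1
  rw [(hS n F c r hr).1, u2, mul_comm (r ^ 2)] at this
  simpa using this

end Pool.Agent.MP_c69980_ag.H84
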